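import Pool.Agent.Y999.ST.Main3
import Pool.Agent.Y974.ST.Law

/-!
# Shift-invariance of colored TASEP passage times with cross-ordering only

Affirmative answer to Q1. The definitions used in the statement are in
`Pool/Agent/Y999/ST/Stm.lean` (`arr`, `rings`, `IsColoredTASEP`, `passage`, `rect`, `RLe`) and
`Pool/Agent/Y999/ST/Main3.lean` (`IsTASEP`).
-/

namespace Pool.Agent.Results.MP_71af4b_pr.CrossShiftInvariance

open MeasureTheory ProbabilityTheory Pool.Agent.Y999.ST

universe u

/-- **Shift-invariance under cross-ordering only.** Let `ζ` be a colored TASEP on `ℤ` started from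
the packed configuration and driven by independent rate-`1` Poisson clocks (on any probability
space; such a process exists). Let `1 ≤ ι < g`, and let `A i ∈ ℤ`, `B i, C i ≥ 1` (indices
`i = 0, …, g - 1`, the first `ι` of them forming the first group) be such that every rectangle of
the first group is `≤` every rectangle of the second group, both before and after the shift
`A i ↦ A i + 1` of the second group. Then the random vectors of the passage times before and after
this shift have the same joint distribution. -/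
theorem result :
    (∃ (Ω : Type) (_ : MeasurableSpace Ω) (P : Measure Ω) (gap : ℤ → ℕ → Ω → ℝ)
      (ζ : Ω → ℝ → ℤ → ℤ), IsTASEP P gap ζ) ∧
    ∀ (Ω : Type u) (_ : MeasurableSpace Ω) (P : Measure Ω) (gap : ℤ → ℕ → Ω → ℝ)
      (ζ : Ω → ℝ → ℤ → ℤ), IsTASEP P gap ζ →
      ∀ (g ι : ℕ), 1 ≤ ι → ι < g → ∀ (A : Fin g → ℤ) (B C : Fin g → ℕ),
      (∀ i, 1 ≤ B i) → (∀ i, 1 ≤ C i) →
      (∀ i i' : Fin g, i.val < ι → ι ≤ i'.val →
        RLe (rect (A i) (B i) (C i)) (rect (A i') (B i') (C i'))) →
      (∀ i i' : Fin g, i.val < ι → ι ≤ i'.val →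
        RLe (rect (A i) (B i) (C i)) (rect (A i' + 1) (B i') (C i'))) →
      IdentDistrib (fun ω i => passage (ζ ω) (A i) (B i) (C i))
        (fun ω i => passage (ζ ω) (A i + if ι ≤ i.val then 1 else 0) (B i) (C i)) P P :=
  ⟨exists_TASEP, fun Ω _ P gap ζ hT g ι hι hιg A B C hB hC h1 h2 =>
    main (Pool.Agent.Y974.ST.law Pool.Agent.Y31.ST.sup) P gap ζ hT g ι hι hιg A B C hB hC h1 h2⟩

end Pool.Agent.Results.MP_71af4b_pr.CrossShiftInvariance
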